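import Pool.Agent.H445.ET.B
import Pool.Agent.H445.GT.E
import Pool.Graph.R_seed8.Y776.EtProof
import Pool.Graph.R_seed8.Y776.ET.Fin

/-!
# MP_4b482e_nt: the relative semi-abelian inequality on `G_m^s × E` and the field of definition of the points

`L` is a pair of periods `ω₁, ω₂` with algebraic invariants `g₂, g₃`, `E : y² = 4 x³ - g₂ x - g₃` the elliptic curve,
`G = G_m^s × E`. A tuple of points `R` of `G` together with logarithms is given by numbers `p_i ∉ L` (`n` points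
`(℘(p_i), ℘'(p_i))` of `E`) and numbers `t_k` (`s` coordinates `e^{t_k}`). For this `G` the field `F` of the problem is
generated by the periods and quasi-periods and the numbers `p_i, ℘(p_i), ζ(p_i), t_k, e^{t_k}`, the number `dim B_Q` is
the dimension `⟨p⟩` of the `k`-span of the `p_i` modulo `L ⊗ ℚ`, `k = ℚ ⊗ End E`, and the number `t` of the problem is
the dimension `⟨t⟩` of the `ℚ`-span of the `t_k` modulo `2πi ℚ`.

Let `T(n,s;r;e,m)` be the set of all `(p,t)` for which the points are defined over a field of transcendence degree at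
most `r`, that is `trdeg ℚ(℘(p), e^t) ≤ r`, and `trdeg F + m ≤ trdeg ℚ(periods) + e + 2 ⟨p⟩ + ⟨t⟩`. We compute the
Hausdorff dimension of these sets and prove that the conjecture for the points over fields of transcendence degree at
most `r` (for `r = 0`: for the points over `Qbar`) is equivalent to statements on the size of the sets for larger `r`.
-/

set_option autoImplicit false

open Set Module
open scoped PeriodPair ENNReal

noncomputable section

namespace Pool.Agent.Results.MP_4b482e_nt.DimensionByFieldOfDefinition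

open Pool.Agent.Y776.Et (ζ k T₀ P₀ trd gen dimMod gen_GA rank_finite gen_finite trd_of_rank)
open Pool.Agent.H445
open Pool.Agent.TH813.Ell Pool.Agent.W245.EB H667R3
open Pool.Agent.TH813.Rel (MK subset_cl rk_le_of_subset_cl)
open Pool.Agent.Y685 (EP clo GenL GenL_finite subset_clo mem_clo_iff rank_add)
open Pool.Agent.Y776 (ET GA ET_finite)

/-- The periods and quasi-periods `ω_i`, `η_i = 2 ζ(ω_i / 2)`, and the invariants. -/
def per (L : PeriodPair) : Set ℂ :=
  {L.g₂, L.g₃, L.ω₁, L.ω₂, 2 * ζ L (L.ω₁ / 2), 2 * ζ L (L.ω₂ / 2)}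

/-- The coordinates `℘(p_i)`, `e^{t_k}` of the points. -/
def coords (L : PeriodPair) {n s : ℕ} (p : Fin n → ℂ) (t : Fin s → ℂ) : Set ℂ :=
  (range fun i => ℘[L] (p i)) ∪ range fun i => Complex.exp (t i)

/-- The generators of the field `F`: periods, quasi-periods, `p_i, ℘(p_i), ζ(p_i), t_k, e^{t_k}`. -/
def numbers (L : PeriodPair) {n s : ℕ} (p : Fin n → ℂ) (t : Fin s → ℂ) : Set ℂ :=
  per L ∪ (((range t) ∪ range fun i => Complex.exp (t i)) ∪
    ((range p) ∪ ((range fun i => ζ L (p i)) ∪ range fun i => ℘[L] (p i))))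

/-- The set `T(n,s;r;e,m)`. -/
def T (L : PeriodPair) (n s r e m : ℕ) : Set ((Fin n → ℂ) × (Fin s → ℂ)) :=
  {w | (∀ i, w.1 i ∉ L.lattice) ∧ trd ℚ (coords L w.1 w.2) ≤ r ∧
    trd ℚ (numbers L w.1 w.2) + m ≤
      trd ℚ (per L) + ((e + dimMod T₀ w.2 + 2 * dimMod (P₀ L) w.1 : ℕ) : Cardinal)}

/-- The largest `d = b + a ≤ r` such that `T(n - b, s - a; r - d; e, m + d)` is not empty (zero if there is none). -/
def level (L : PeriodPair) (n s r e m : ℕ) : ℕ :=
  sSup {d | d ≤ r ∧ ∃ b a : ℕ, b ≤ n ∧ a ≤ s ∧ b + a = d ∧ (T L (n - b) (s - a) (r - d) e (m + d)).Nonempty}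

/-- The inequality of the problem with error `m` for all groups `G_m^s × E` and all points over fields of
transcendence degree at most `r`. -/
def Holds (L : PeriodPair) (r m : ℕ) : Prop :=
  ∀ (n s : ℕ) (p : Fin n → ℂ) (t : Fin s → ℂ), (∀ i, p i ∉ L.lattice) → trd ℚ (coords L p t) ≤ r →
    trd ℚ (per L) + ((dimMod T₀ t + 2 * dimMod (P₀ L) p : ℕ) : Cardinal) ≤ trd ℚ (numbers L p t) + m

variable {L : PeriodPair} {n s r e m : ℕ}

theorem per_eq (L : PeriodPair) : per L = GenL L := by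
  have e1 : 2 * ζ L (L.ω₁ / 2) = eta L L.ω₁ :=
    (eta_half L.ω₁_mem_lattice (half₁ L)).symm
  have e2 : 2 * ζ L (L.ω₂ / 2) = eta L L.ω₂ :=
    (eta_half L.ω₂_mem_lattice (half₂ L)).symm
  unfold per GenL
  rw [e1, e2]

theorem numbers_eq {p : Fin n → ℂ} (t : Fin s → ℂ) (hp : ∀ i, p i ∉ L.lattice) :
    numbers L p t = GenL L ∪ (ET t ∪ EP L p) := by
  have e3 : (range fun i => ζ L (p i)) = range (fun i => zt L (p i)) := by
    congr 1
    funext i
    exact (if_neg (hp i)).symm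
  unfold numbers Pool.Agent.Y776.ET EP
  rw [per_eq, e3]

/-- the rank of the periods -/
theorem exists_rank {S : Set ℂ} (hS : S.Finite) :
    ∃ g : ℕ, (MK (⊥ : IntermediateField ℚ ℂ)).eRk S = (g : ℕ∞) ∧ trd ℚ S = (g : Cardinal) := by
  obtain ⟨g, hg⟩ := rank_finite (K := ℚ) hS
  refine ⟨g, ?_, trd_of_rank hg⟩
  rw [← MJ.FR_bot, Pool.Agent.Y685.MK_FR ℚ, hg]

theorem type_eq (h2 : IsAlgebraic ℚ L.g₂) (h3 : IsAlgebraic ℚ L.g₃) {S : Set ℂ} (hS : S.Finite) :
    (MK (C0 L)).eRk S = (MK (⊥ : IntermediateField ℚ ℂ)).eRk S := by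
  have hf : ({L.g₂, L.g₃} : Set ℂ).Finite := by simp
  have h0 : (MK (⊥ : IntermediateField ℚ ℂ)).eRk {L.g₂, L.g₃} = 0 := by
    have := (rk_zero_iff (S := {L.g₂, L.g₃})).2 (by
      rintro s (rfl | rfl)
      · exact h2
      · exact h3)
    simpa using this
  have h1 := rank_add (C := (⊥ : IntermediateField ℚ ℂ)) hf hS
  rw [h0, zero_add] at h1
  rw [← h1]
  apply le_antisymm
  · apply rk_le_of_subset_cl
    rintro x ((rfl | rfl) | hx)
    · exact alg_mem_cl h2 _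
    · exact alg_mem_cl h3 _
    · exact subset_cl _ hx
  · exact (MK _).eRk_mono subset_union_right

/-- the set as a set of vectors -/
def V (L : PeriodPair) (g n s r e m : ℕ) : Set (Fin (n + s) → ℂ) := VT L (GenL L) (P₂ L) P₁ (g + e) n s r m

theorem base (L : PeriodPair) : BaseM L (GenL L) (P₂ L) P₁ :=
  ⟨GenL_finite, subset_clo (by left; rfl), subset_clo (by right; left; rfl),
    Pool.Agent.TH813.Ell.fd_P₂ L, Pool.Agent.TH813.Ell.fd_P₁⟩

theorem dummy (L : PeriodPair) : Dummy L (GenL L) (P₂ L) (L.ω₁ / 2) := by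
  have hr : ∀ (D : Derivation ℚ ℂ ℂ) (x : ℂ), D (2 * x) = 0 → D x = 0 := by
    intro D x h
    have h1 : x = (2⁻¹ : ℚ) • (2 * x) := by
      rw [Rat.smul_def]
      push_cast
      ring
    rw [h1, D.map_smul, h, smul_zero]
  have h2 : 2 * (L.ω₁ / 2) = L.ω₁ := by ring
  refine ⟨L.ω₁_div_two_notMem_lattice, ?_, ?_, ?_⟩
  · intro D _ h
    apply hr
    rw [h2]
    exact h _ (by right; right; left; rfl)
  · intro D _ h
    apply hr
    have e1 : 2 * ζ L (L.ω₁ / 2) = eta L L.ω₁ :=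
      (eta_half L.ω₁_mem_lattice (half₁ L)).symm
    have e2 : zt L (L.ω₁ / 2) = ζ L (L.ω₁ / 2) := if_neg L.ω₁_div_two_notMem_lattice
    rw [e2, e1]
    exact h _ (by right; right; right; right; left; rfl)
  · intro D _ h
    have h4 : 2 * (L.ω₁ / 2) ∈ L.lattice := by
      rw [h2]
      exact L.ω₁_mem_lattice
    exact (wp_killed (h _ (by simp)) (h _ (by simp)) (om_of_two_mul_mem L D h4)
      L.ω₁_div_two_notMem_lattice).1

/-- the two components of a vector -/
def split (n s : ℕ) : (Fin (n + s) → ℂ) →L[ℂ] (Fin n → ℂ) × (Fin s → ℂ) :=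
  (ContinuousLinearMap.pi fun i => ContinuousLinearMap.proj (Fin.castAdd s i)).prod
    (ContinuousLinearMap.pi fun i => ContinuousLinearMap.proj (Fin.natAdd n i))

/-- the vector with given components -/
def join (n s : ℕ) : (Fin n → ℂ) × (Fin s → ℂ) →L[ℂ] (Fin (n + s) → ℂ) :=
  ContinuousLinearMap.pi (Fin.addCases
    (fun i => (ContinuousLinearMap.proj i).comp (ContinuousLinearMap.fst ℂ _ _))
    (fun i => (ContinuousLinearMap.proj i).comp (ContinuousLinearMap.snd ℂ _ _)))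

theorem join_split (w : Fin (n + s) → ℂ) : join n s (split n s w) = w := by
  funext i
  refine Fin.addCases (fun i => ?_) (fun i => ?_) i
  · simp [join, split]
  · simp [join, split]

theorem split_join (w : (Fin n → ℂ) × (Fin s → ℂ)) : split n s (join n s w) = w := by
  refine Prod.ext (funext fun i => ?_) (funext fun i => ?_)
  · simp [join, split]
  · simp [join, split]

theorem mem_V (h2 : IsAlgebraic ℚ L.g₂) (h3 : IsAlgebraic ℚ L.g₃) {g : ℕ} (hg : trd ℚ (per L) = (g : Cardinal))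
    {w : Fin (n + s) → ℂ} : w ∈ V L g n s r e m ↔ split n s w ∈ T L n s r e m := by
  have hT : ∀ (p : Fin n → ℂ) (t : Fin s → ℂ), ((MK (C0 L)).eRk (TYE L p t) ≤ (r : ℕ∞) ↔
      trd ℚ (coords L p t) ≤ r) := by
    intro p t
    obtain ⟨ρ, h4, h5⟩ := exists_rank (TYE_finite (L := L) p t)
    have h6 : coords L p t = TYE L p t := union_comm _ _
    rw [type_eq h2 h3 (TYE_finite p t), h4, h6, h5]
    norm_cast
  change ((_ ∧ _) ∧ _) ↔ (_ ∧ _ ∧ _)
  rw [hT, and_assoc]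
  refine and_congr_right fun hp => ?_
  have hp' : ∀ i, (split n s w).1 i ∉ L.lattice := hp
  rw [and_comm]
  refine and_congr_right fun _ => ?_
  rw [numbers_eq _ hp', hg]
  obtain ⟨ρ, h4, h5⟩ := exists_rank (GenL_finite.union ((ET_finite (split n s w).2).union
    (Pool.Agent.Y685.EP_finite (L := L) (split n s w).1)))
  rw [h5]
  have h6 : (MK (⊥ : IntermediateField ℚ ℂ)).eRk (GenL L ∪ (ET (fun i => w (Fin.natAdd n i)) ∪
      EP L (fun i => w (Fin.castAdd s i)))) = ρ := h4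
  rw [h6]
  have h7 : dimQ P₁ (fun i => w (Fin.natAdd n i)) = dimMod T₀ (split n s w).2 := rfl
  have h8 : dimQ (P₂ L) (fun i => w (Fin.castAdd s i)) = dimMod (P₀ L) (split n s w).1 := rfl
  rw [h7, h8]
  have h9 : dimMod T₀ (split n s w).2 + (g + e) + 2 * dimMod (P₀ L) (split n s w).1 =
      g + (e + dimMod T₀ (split n s w).2 + 2 * dimMod (P₀ L) (split n s w).1) := by ring
  rw [h9]
  norm_cast

theorem T_eq (h2 : IsAlgebraic ℚ L.g₂) (h3 : IsAlgebraic ℚ L.g₃) {g : ℕ} (hg : trd ℚ (per L) = (g : Cardinal)) :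
    T L n s r e m = split n s '' V L g n s r e m := by
  ext w
  constructor
  · intro hw
    refine ⟨join n s w, ?_, split_join w⟩
    rw [mem_V h2 h3 hg, split_join]
    exact hw
  · rintro ⟨u, hu, rfl⟩
    exact (mem_V h2 h3 hg).1 hu

theorem V_eq (h2 : IsAlgebraic ℚ L.g₂) (h3 : IsAlgebraic ℚ L.g₃) {g : ℕ} (hg : trd ℚ (per L) = (g : Cardinal)) :
    V L g n s r e m = join n s '' T L n s r e m := by
  ext w
  constructor
  · intro hw
    exact ⟨split n s w, (mem_V h2 h3 hg).1 hw, join_split w⟩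
  · rintro ⟨u, hu, rfl⟩
    rw [mem_V h2 h3 hg, split_join]
    exact hu

theorem nonempty_iff (h2 : IsAlgebraic ℚ L.g₂) (h3 : IsAlgebraic ℚ L.g₃) {g : ℕ}
    (hg : trd ℚ (per L) = (g : Cardinal)) : (T L n s r e m).Nonempty ↔ (V L g n s r e m).Nonempty := by
  rw [T_eq h2 h3 hg, Set.image_nonempty]

theorem dimH_eq (h2 : IsAlgebraic ℚ L.g₂) (h3 : IsAlgebraic ℚ L.g₃) {g : ℕ}
    (hg : trd ℚ (per L) = (g : Cardinal)) : dimH (T L n s r e m) = dimH (V L g n s r e m) := by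
  apply le_antisymm
  · rw [T_eq h2 h3 hg]
    exact (split n s).lipschitz.dimH_image_le _
  · conv_lhs => rw [V_eq h2 h3 hg]
    exact (join n s).lipschitz.dimH_image_le _

theorem countable_eq (h2 : IsAlgebraic ℚ L.g₂) (h3 : IsAlgebraic ℚ L.g₃) {g : ℕ}
    (hg : trd ℚ (per L) = (g : Cardinal)) : (T L n s r e m).Countable ↔ (V L g n s r e m).Countable := by
  constructor
  · intro h
    rw [V_eq h2 h3 hg]
    exact h.image _
  · intro h
    rw [T_eq h2 h3 hg]
    exact h.image _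

/-- the levels -/
def Lev (L : PeriodPair) (n s r e m : ℕ) : Set ℕ :=
  {d | d ≤ r ∧ ∃ b a : ℕ, b ≤ n ∧ a ≤ s ∧ b + a = d ∧ (T L (n - b) (s - a) (r - d) e (m + d)).Nonempty}

theorem Lev_eq (h2 : IsAlgebraic ℚ L.g₂) (h3 : IsAlgebraic ℚ L.g₃) {g : ℕ} (hg : trd ℚ (per L) = (g : Cardinal)) :
    Lev L n s r e m = LevT L (GenL L) (P₂ L) P₁ (g + e) n s r m := by
  unfold Lev LevT
  simp only [nonempty_iff h2 h3 hg]
  rfl

theorem exists_g (L : PeriodPair) : ∃ g : ℕ, trd ℚ (per L) = (g : Cardinal) := by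
  obtain ⟨g, -, hg⟩ := exists_rank (GenL_finite (L := L))
  exact ⟨g, by rw [per_eq]; exact hg⟩

theorem dim_eq (h2 : IsAlgebraic ℚ L.g₂) (h3 : IsAlgebraic ℚ L.g₃) :
    dimH (T L n s r e m) = ((2 * level L n s r e m : ℕ) : ℝ≥0∞) := by
  obtain ⟨g, hg⟩ := exists_g L
  have h : level L n s r e m = sSup (Lev L n s r e m) := rfl
  rw [h, dimH_eq h2 h3 hg, Lev_eq h2 h3 hg]
  exact dimT (dummy L) (base L)

theorem Lev_down (h2 : IsAlgebraic ℚ L.g₂) (h3 : IsAlgebraic ℚ L.g₃) {d d' : ℕ} (hd : d' ≤ d)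
    (h : d ∈ Lev L n s r e m) : d' ∈ Lev L n s r e m := by
  obtain ⟨g, hg⟩ := exists_g L
  rw [Lev_eq h2 h3 hg] at h ⊢
  exact LevT_down (dummy L) (base L) hd h

theorem Lev_bdd : BddAbove (Lev L n s r e m) := ⟨r, fun _ h => h.1⟩

theorem countable_iff (h2 : IsAlgebraic ℚ L.g₂) (h3 : IsAlgebraic ℚ L.g₃) :
    (T L n s r e m).Countable ↔ 1 ∉ Lev L n s r e m := by
  obtain ⟨g, hg⟩ := exists_g L
  rw [countable_eq h2 h3 hg, Lev_eq h2 h3 hg]
  exact countableT (dummy L) (base L)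

theorem level_le_iff (h2 : IsAlgebraic ℚ L.g₂) (h3 : IsAlgebraic ℚ L.g₃) {d : ℕ} :
    dimH (T L n s r e m) ≤ ((2 * d : ℕ) : ℝ≥0∞) ↔ d + 1 ∉ Lev L n s r e m := by
  rw [dim_eq h2 h3, Nat.cast_le]
  have h : level L n s r e m = sSup (Lev L n s r e m) := rfl
  rw [h]
  constructor
  · intro h1 h4
    have := le_csSup Lev_bdd h4
    omega
  · intro h1
    by_contra h4
    apply h1
    rcases (Lev L n s r e m).eq_empty_or_nonempty with h5 | h5
    · rw [h5, csSup_empty] at h4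
      exact absurd (Nat.zero_le _) h4
    · exact Lev_down h2 h3 (by omega) (Nat.sSup_mem h5 Lev_bdd)

/-- the threshold -/
theorem threshold (h2 : IsAlgebraic ℚ L.g₂) (h3 : IsAlgebraic ℚ L.g₃) (n s r e m d : ℕ) :
    dimH (T L n s (r + d + 1) e m) ≤ ((2 * d : ℕ) : ℝ≥0∞) ↔
      ∀ b a : ℕ, b ≤ n → a ≤ s → b + a = d + 1 → T L (n - b) (s - a) r e (m + d + 1) = ∅ := by
  rw [level_le_iff h2 h3]
  have e1 : r + d + 1 - (d + 1) = r := by omega
  constructor
  · intro h b a hb ha hba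
    by_contra hne
    refine h ⟨by omega, b, a, hb, ha, hba, ?_⟩
    rw [e1]
    exact nonempty_iff_ne_empty.2 hne
  · rintro h ⟨-, b, a, hb, ha, hba, h4⟩
    rw [e1, ← add_assoc, h b a hb ha hba] at h4
    exact not_nonempty_empty h4

/-- the shift of the error -/
theorem T_shift (L : PeriodPair) (n s r e m d : ℕ) : T L n s r (e + d) (m + d) = T L n s r e m := by
  obtain ⟨g, hg⟩ := exists_g L
  ext w
  change (_ ∧ _ ∧ _) ↔ (_ ∧ _ ∧ _)
  refine and_congr_right fun hp => and_congr_right fun _ => ?_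
  rw [hg, numbers_eq _ hp]
  obtain ⟨ρ, -, h5⟩ := exists_rank (GenL_finite.union ((ET_finite w.2).union
    (Pool.Agent.Y685.EP_finite (L := L) w.1)))
  rw [h5]
  norm_cast
  omega

theorem holds_iff (L : PeriodPair) (r m : ℕ) : Holds L r m ↔ ∀ n s, T L n s r 0 (m + 1) = ∅ := by
  obtain ⟨g, hg⟩ := exists_g L
  have key : ∀ {n s : ℕ} (p : Fin n → ℂ) (t : Fin s → ℂ), (∀ i, p i ∉ L.lattice) →
      (trd ℚ (per L) + ((dimMod T₀ t + 2 * dimMod (P₀ L) p : ℕ) : Cardinal) ≤ trd ℚ (numbers L p t) + m ↔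
      ¬ (trd ℚ (numbers L p t) + ((m + 1 : ℕ) : Cardinal) ≤
        trd ℚ (per L) + ((0 + dimMod T₀ t + 2 * dimMod (P₀ L) p : ℕ) : Cardinal))) := by
    intro n s p t hp
    rw [hg, numbers_eq _ hp]
    obtain ⟨ρ, -, h5⟩ := exists_rank (GenL_finite.union ((ET_finite t).union
      (Pool.Agent.Y685.EP_finite (L := L) p)))
    rw [h5]
    norm_cast
    omega
  constructor
  · intro h n s
    rw [Set.eq_empty_iff_forall_notMem]
    rintro w ⟨h1, h4, h5⟩
    exact (key w.1 w.2 h1).1 (h n s w.1 w.2 h1 h4) h5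
  · intro h n s p t h1 h4
    rw [key p t h1]
    intro h5
    have h6 : (p, t) ∈ T L n s r 0 (m + 1) := ⟨h1, h4, h5⟩
    rw [h] at h6
    exact h6

/-- the inequality and the dimensions -/
theorem holds_dim (h2 : IsAlgebraic ℚ L.g₂) (h3 : IsAlgebraic ℚ L.g₃) (r m d : ℕ) :
    Holds L r m ↔ ∀ n s, dimH (T L n s (r + d + 1) d m) ≤ ((2 * d : ℕ) : ℝ≥0∞) := by
  rw [holds_iff]
  constructor
  · intro h n s
    rw [threshold h2 h3]
    intro b a _ _ _
    have h4 := T_shift L (n - b) (s - a) r 0 (m + 1) d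
    rw [zero_add] at h4
    have e1 : m + d + 1 = m + 1 + d := by omega
    rw [e1, h4]
    exact h _ _
  · intro h n s
    have h5 := (threshold h2 h3 (n + (d + 1)) s r d m d).1 (h _ _) (d + 1) 0 (by omega) (by omega) rfl
    have h4 := T_shift L n s r 0 (m + 1) d
    rw [zero_add] at h4
    have e1 : m + d + 1 = m + 1 + d := by omega
    rw [e1, Nat.add_sub_cancel, Nat.sub_zero, h4] at h5
    exact h5

/-- the trivial tuples -/
theorem T_zero (L : PeriodPair) (h2 : IsAlgebraic ℚ L.g₂) (h3 : IsAlgebraic ℚ L.g₃) (n s r : ℕ) :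
    (T L n s r 0 0).Nonempty := by
  obtain ⟨g, hg⟩ := exists_g L
  have hg' : trd ℚ (GenL L) = (g : Cardinal) := by rw [← per_eq]; exact hg
  rw [nonempty_iff h2 h3 hg]
  refine (VT_nonempty (dummy L) (base L)).2 ⟨0, 0, Nat.zero_le _, Nat.zero_le _, ST_nonempty.2
    ⟨Fin.elim0, Fin.elim0, ⟨⟨fun i => i.elim0, fun c _ _ => Subsingleton.elim _ _,
      fun c _ => Subsingleton.elim _ _, ?_⟩, ?_⟩⟩⟩
  · have h4 : (GenL L ∪ (ET (Fin.elim0 : Fin 0 → ℂ) ∪ EP L (Fin.elim0 : Fin 0 → ℂ))) = GenL L := by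
      ext x
      constructor
      · rintro (h | (⟨i, -⟩ | ⟨i, -⟩) | (⟨i, -⟩ | ⟨i, -⟩ | ⟨i, -⟩))
        · exact h
        all_goals exact i.elim0
      · exact Or.inl
    rw [h4]
    obtain ⟨ρ, h5, h6⟩ := exists_rank (GenL_finite (L := L))
    rw [hg'] at h6
    have h7 : g = ρ := by exact_mod_cast h6
    rw [h5, h7]
    simp
  · have h4 : TYE L (Fin.elim0 : Fin 0 → ℂ) (Fin.elim0 : Fin 0 → ℂ) = ∅ := by
      ext x
      constructor
      · rintro (⟨i, -⟩ | ⟨i, -⟩) <;> exact i.elim0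
      · exact fun h => h.elim
    rw [h4]
    simp

/-- the exact value -/
theorem exact_value (h2 : IsAlgebraic ℚ L.g₂) (h3 : IsAlgebraic ℚ L.g₃) (n s d : ℕ) (hd : d ≤ n + s) :
    ((∀ b a : ℕ, b ≤ n → a ≤ s → b + a = d + 1 → T L (n - b) (s - a) 0 0 1 = ∅) →
      dimH (T L n s (d + 1) d 0) = ((2 * d : ℕ) : ℝ≥0∞)) ∧
    ((¬ ∀ b a : ℕ, b ≤ n → a ≤ s → b + a = d + 1 → T L (n - b) (s - a) 0 0 1 = ∅) →
      dimH (T L n s (d + 1) d 0) = ((2 * (d + 1) : ℕ) : ℝ≥0∞)) := by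
  have h4 : d ∈ Lev L n s (d + 1) d 0 := by
    refine ⟨by omega, min d n, d - min d n, by omega, by omega, by omega, ?_⟩
    have h5 := T_shift L (n - min d n) (s - (d - min d n)) (d + 1 - d) 0 0 d
    rw [zero_add] at h5
    rw [zero_add]
    have e0 := h5 ▸ T_zero L h2 h3 (n - min d n) (s - (d - min d n)) (d + 1 - d)
    exact e0
  have h6 : level L n s (d + 1) d 0 = sSup (Lev L n s (d + 1) d 0) := rfl
  have h7 := le_csSup Lev_bdd h4
  have h8 : sSup (Lev L n s (d + 1) d 0) ≤ d + 1 := csSup_le ⟨d, h4⟩ fun _ h => h.1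
  have h9 : (∀ b a : ℕ, b ≤ n → a ≤ s → b + a = d + 1 → T L (n - b) (s - a) 0 0 1 = ∅) ↔
      dimH (T L n s (d + 1) d 0) ≤ ((2 * d : ℕ) : ℝ≥0∞) := by
    have h10 := threshold h2 h3 n s 0 d 0 d
    simp only [zero_add] at h10
    rw [h10]
    refine forall_congr' fun b => forall_congr' fun a => forall_congr' fun _ => forall_congr' fun _ =>
      forall_congr' fun _ => ?_
    have h11 := T_shift L (n - b) (s - a) 0 0 1 d
    rw [zero_add, add_comm 1 d] at h11
    rw [h11]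
  rw [h9, dim_eq h2 h3, Nat.cast_le]
  constructor
  · intro h
    congr 2
    omega
  · intro h
    congr 2
    omega

/-- the trivial bound -/
theorem bound (h : (T L n s r e m).Nonempty) : m ≤ e + s + 2 * n := by
  obtain ⟨g, hg⟩ := exists_g L
  obtain ⟨w, h1, -, h5⟩ := h
  rw [hg, numbers_eq _ h1] at h5
  have hg' : trd ℚ (GenL L) = (g : Cardinal) := by rw [← per_eq]; exact hg
  have hf := (GenL_finite (L := L)).union ((ET_finite w.2).union (Pool.Agent.Y685.EP_finite (L := L) w.1))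
  obtain ⟨ρ, h6, h7⟩ := exists_rank hf
  obtain ⟨g', h8, h9⟩ := exists_rank (GenL_finite (L := L))
  have h10 : g ≤ ρ := by
    have h11 : g = g' := by exact_mod_cast hg'.symm.trans h9
    have h12 := (MK (⊥ : IntermediateField ℚ ℂ)).eRk_mono
      (subset_union_left : GenL L ⊆ GenL L ∪ (ET w.2 ∪ EP L w.1))
    rw [h6, h8] at h12
    rw [h11]
    exact_mod_cast h12
  rw [h7] at h5
  have h13 : ρ + m ≤ g + (e + dimMod T₀ w.2 + 2 * dimMod (P₀ L) w.1) := by exact_mod_cast h5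
  have h14 : dimMod T₀ w.2 ≤ s := dimQ_le _ _
  have h15 : dimMod (P₀ L) w.1 ≤ n := dimQ_le _ _
  omega

theorem level_bound (h : (T L n s r e m).Nonempty) : m + 2 * level L n s r e m ≤ e + s + 2 * n := by
  have h0 : 0 ∈ Lev L n s r e m := ⟨Nat.zero_le _, 0, 0, Nat.zero_le _, Nat.zero_le _, rfl, h⟩
  obtain ⟨-, b, a, h1, h2, h3, h4⟩ := Nat.sSup_mem ⟨0, h0⟩ Lev_bdd
  have h5 := bound h4
  have h6 : level L n s r e m = sSup (Lev L n s r e m) := rfl
  rw [h6]
  omega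

/-- **The theorem** -/
theorem result (L : PeriodPair) (h2 : IsAlgebraic ℚ L.g₂) (h3 : IsAlgebraic ℚ L.g₃) :
    -- the exact dimension
    (∀ n s r e m : ℕ, dimH (T L n s r e m) = ((2 * level L n s r e m : ℕ) : ℝ≥0∞) ∧
      ((T L n s r e m).Nonempty → m + 2 * level L n s r e m ≤ e + s + 2 * n)) ∧
    -- countability
    (∀ n s r e m : ℕ, (T L n s r e m).Countable ↔
      (1 ≤ r → (1 ≤ n → T L (n - 1) s (r - 1) e (m + 1) = ∅) ∧ (1 ≤ s → T L n (s - 1) (r - 1) e (m + 1) = ∅))) ∧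
    -- the threshold
    (∀ n s r e m d : ℕ, dimH (T L n s (r + d + 1) e m) ≤ ((2 * d : ℕ) : ℝ≥0∞) ↔
      ∀ b a : ℕ, b ≤ n → a ≤ s → b + a = d + 1 → T L (n - b) (s - a) r e (m + d + 1) = ∅) ∧
    -- the inequality over fields of transcendence degree at most `r`
    (∀ r m d : ℕ, Holds L r m ↔ ∀ n s, dimH (T L n s (r + d + 1) d m) ≤ ((2 * d : ℕ) : ℝ≥0∞)) ∧
    (∀ r m : ℕ, Holds L r m ↔ ∀ n s, (T L n s (r + 1) 0 m).Countable) ∧
    -- algebraic points, exact value
    (∀ n s d : ℕ, d ≤ n + s →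
      ((∀ b a : ℕ, b ≤ n → a ≤ s → b + a = d + 1 → T L (n - b) (s - a) 0 0 1 = ∅) →
        dimH (T L n s (d + 1) d 0) = ((2 * d : ℕ) : ℝ≥0∞)) ∧
      ((¬ ∀ b a : ℕ, b ≤ n → a ≤ s → b + a = d + 1 → T L (n - b) (s - a) 0 0 1 = ∅) →
        dimH (T L n s (d + 1) d 0) = ((2 * (d + 1) : ℕ) : ℝ≥0∞))) := by
  have hc : ∀ n s r e m : ℕ, (T L n s r e m).Countable ↔
      (1 ≤ r → (1 ≤ n → T L (n - 1) s (r - 1) e (m + 1) = ∅) ∧
        (1 ≤ s → T L n (s - 1) (r - 1) e (m + 1) = ∅)) := by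
    intro n s r e m
    rw [countable_iff h2 h3]
    constructor
    · intro h hr
      refine ⟨fun hn => ?_, fun hs => ?_⟩
      · by_contra hne
        exact h ⟨hr, 1, 0, hn, Nat.zero_le _, rfl, nonempty_iff_ne_empty.2 hne⟩
      · by_contra hne
        exact h ⟨hr, 0, 1, Nat.zero_le _, hs, rfl, nonempty_iff_ne_empty.2 hne⟩
    · rintro h ⟨hr, b, a, hb, ha, hab, h4⟩
      obtain ⟨h5, h6⟩ := h hr
      rcases Nat.eq_zero_or_pos b with rfl | hb0
      · obtain rfl : a = 1 := by omega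
        rw [Nat.sub_zero, h6 ha] at h4
        exact not_nonempty_empty h4
      · obtain ⟨rfl, rfl⟩ : b = 1 ∧ a = 0 := by omega
        rw [Nat.sub_zero, h5 hb] at h4
        exact not_nonempty_empty h4
  refine ⟨fun n s r e m => ⟨dim_eq h2 h3, level_bound⟩, hc, threshold h2 h3, holds_dim h2 h3, ?_,
    fun n s d hd => exact_value h2 h3 n s d hd⟩
  intro r m
  rw [holds_iff]
  constructor
  · intro h n s
    rw [hc]
    intro _
    rw [Nat.add_sub_cancel]
    exact ⟨fun _ => h _ _, fun _ => h _ _⟩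
  · intro h n s
    have h4 := ((hc (n + 1) s (r + 1) 0 m).1 (h _ _) (by omega)).1 (by omega)
    rwa [Nat.add_sub_cancel, Nat.add_sub_cancel] at h4

end Pool.Agent.Results.MP_4b482e_nt.DimensionByFieldOfDefinition
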