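import Pool.Agent.H885.AbsR

/-!
# Generalized logarithms over the periods of the fibre: the sum of the relative defects, over number fields

**The question.** For a semi-abelian variety `G` over `ℚ̄` and `R_1, …, R_k ∈ G(ℂ)` the relative form of Schanuel's conjecture says
that the transcendence degree of the coordinates and of the generalized logarithms (integrals of the first, second and
third kind) of the `R_i` over the field `ℚ̄(Ω_G)` generated by the periods of `G` is at least `2 dim B_Q + t`. This is the
dimension of the kernel of `Gal(M) → Gal(G)` for the 1-motive `M = [ℤ^k → G]`. We prove it **in bounded degree for all but few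
of the algebraic points of all families** of semi-abelian varieties with `k` sections, near a fixed point of the base. Here `G` and
its period field `ℚ̄(Ω_G)` **vary with the point**.

**The setting.** For `j = 1, …, N` let `M_j = [ℤ^(k_j) → G_j]` be a family of 1-motives over a number field `F`, that is, a
semi-abelian scheme `G_j` with sections `R_1, R_2, …`, over a neighbourhood of `0` in the affine space of **any dimension `m`**. (More
generally `M_j` is any family of mixed motives with a subfamily `G_j`.) In bases of the de Rham realisation over `F` and of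
the homology, adapted to `H_1(G_j) ⊆ H_1(M_j)`, the period matrix of the fibre over `x` is `P_j(x) = C_j Z_j(x)`, with a
matrix `Z_j` of G-functions over `F` in the `m` variables `x`, the solution of the Gauss-Manin system, and the period
matrix `C_j` of the fibre over `0`. It has the rows of the closed cycles of `G_j`, which contain the periods of `G_j`, and further
rows, the set of which is called `top`: they belong to the paths from the origin to the points `R_i` and contain the
generalized logarithms of the `R_i` (and constants). So the entries `(a, b)` of `C_j` with `a` not in `top` and `b` in `top`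
are zero. All points `x ∈ F^m` of the base can be written in the form `x_j = a_j / b_j` with `a_j ∈ 𝓞_F^m` and `b_j ∈ ℕ`, and then
the points `R_i(x_j)` are algebraic. The number field is embedded in `ℂ` by arbitrary embeddings `φ_j`.

Let `𝔤` be a space of tuples `X = (X_1, …, X_N)` of matrices such that, for each `c`, the tuple of the `X_j` with `b_j = c` is an
infinitesimal symmetry of the restrictions of the `φ_j(Z_j)` with `b_j = c` to the lines `F a_j`, and such that **the rows of
`X_j` outside of `top` are zero**. The largest `𝔤` is the Lie algebra of the kernel of `Gal(⨁ M_j) → Gal(⨁ G_j)`, for the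
differential Galois groups over `ℂ(x)`; its dimension is computed by the theorems of Ax, Bertrand, Pillay and André: it is the
analogue of `2 dim B_Q + t` for the sections over `ℂ(x)`. (This interpretation is not part of the Lean theorem.)

The **relative defect** (in degree `δ`) of the tuple of the fibres at the `x_j` is at most `ρ` if `dim 𝔤 - ρ` of the entries of the
`P_j(x_j)` (so of the logarithms) satisfy no nonzero polynomial relation of degree at most `δ` whose coefficients are
algebraic of degree at most `e` over the numbers `η_1, …, η_u` and **all entries of the rows of the `P_j(x_j)` outside of `top`,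
that is, the periods `Ω_G` of the fibres `G_j` at the points `x_j`**. Here the `η_i` are any given numbers, algebraic over the field of
the periods of the central fibres.

**Theorem.** Fix a number field `F` and `m, n, N, M, q, s, ℓ, u, e, δ`. There is `E` with the following property for all
complex numbers `β_1, …, β_s`, all `H, h, w` and all `b₀ ≥ (2 H (h + w + 2))^E`. We consider

* **all** tuples `b_1, …, b_N` of denominators in the window `[b₀, b₀ + w]`, at most `M` of them different, such that the
  distances of different `b_j` are larger than `2^(m+1) H (h + 2)`,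
* **all** families as above over `F`, that is, all `n × n` systems `T ∂Z_j / ∂x_i = Z_j A_{j i}` of degree at
  most `q`, for which the height of the system and the growth constants of the coefficients and of the denominators of
  `Z_j` and `Z_j⁻¹` are at most `H` (the size of an element of `F` is its house, the maximum of the absolute values of the
  conjugates), and all embeddings `φ_j : F → ℂ`,
* **all** numerators `a_j ∈ 𝓞_F^m` with `house(a_j) ≤ h`; if `0` is a pole of the system then the line `F a_j` must not be
  contained in the polar locus `T = 0`,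
* **all** numbers `γ_1, …, γ_ℓ` and **all** central fibres with periods and logarithms (entries of the `C_j`) algebraic of degree
  at most `e` over `ℚ(β_1, …, β_s, γ_1, …, γ_ℓ)`, such that the matrices `P_j(x_j)` are invertible, and all `η_i`
  algebraic of degree at most `e` over `ℚ(β_1, …, β_s, γ_1, …, γ_ℓ)`,
* all sets `top` of rows, and all `𝔤` as above.

(If `G_j` is constant, also sections of the form `R_i(x) = R_i^0 + r_i(x)` are admitted, where the `r_i` are defined over `F` and
`R_i^0` is any complex point of `G_j` whose logarithms are algebraic over `ℚ(β, γ)`; so the points need not be algebraic.)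

1. **The sum of the relative defects is at most `s`:** for any number of tuples of fibres as above, of any families over `F`,
   the denominators of which are at distance larger than `2^(m+1) H (h + 2)` for different tuples, there are `ρ_1, ρ_2, …` with
   `∑ ρ_l ≤ s` such that the relative defect of the tuple with number `l` is at most `ρ_l + ℓ`.
2. **Few exceptional denominators:** for each `r ≥ ℓ` there is a set `𝓔` of at most `M ⌊s / (r + 1 - ℓ)⌋` denominators such
   that **all** tuples as above the denominators of which are at distance larger than `2^(m+1) H (h + 2)` from the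
   elements of `𝓔` have a relative defect of at most `r`. The set `𝓔` depends on `β_1, …, β_s` and on the window only.

For `r = ℓ = 0` this is the relative conjecture in bounded degree for the fibres with all but `M s` denominators (and their
neighbours) in each window. There is no condition on the periods of `G_j`: neither the transcendence degree of the periods of
the fibres `G_j(x_j)`, over which the logarithms are considered, nor the monodromy of `G_j` plays a role.

What is known. Over `ℚ̄` (not over the periods) and if all constants `C_j` are algebraic this is the classical theory of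
values of G-functions (Bombieri, Chudnovsky, André), without exceptions. Our `DefectsOverNumberFields` (MP_57341d_ag) is about the
transcendence degree of all periods over fields of constants; if `G_j` is constant, the relative defect considered here is
a special case. For non-constant `G_j` the field `ℚ̄(Ω_(G_j(x_j)))` is not of this type, and the theorem is new also for one
family.

Proof (`Pool/Agent/H885/AbsR`). In an ultraproduct of a sequence of counterexamples there is, for each of the separated tuples and
each sequence of elements of `𝔤`, a derivation of `*ℂ` over `*ℚ` which moves the values of the `Z_j` at this tuple by the symmetry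
and kills the values at all other tuples (`derF`: a linear independence theorem for values of G-functions with explicit
constants, restriction of scalars, analytic continuation). By linear algebra (`pigeonS`) the derivations which kill the
`β_i` and `γ_i` move the values of the tuple `l` in a space of dimension at least `dim 𝔤 - ρ_l - ℓ`. They kill the `C_j` and
move `P_j` by `C_j X_j Z_j`, which is zero in the rows outside of `top`; so they kill the whole field generated by the
periods of the `G_j(x_j)` and the `η_i`, and the transcendence degree over the field of constants of all these derivations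
is at least `dim 𝔤 - ρ_l - ℓ`.
-/

set_option autoImplicit false

open PowerSeries Filter NumberField
open scoped Matrix

namespace Pool.Agent.Results.MP_4b482e_nt.RelativeDefects

section several
variable {F : Type} [Field F] [NumberField F] {n m N : ℕ}

/-- a polynomial in `m` variables with coefficients in the ring of integers `𝓞 F` as a power series with coefficients in `F` -/
noncomputable def toSeries (P : MvPolynomial (Fin m) (𝓞 F)) : MvPowerSeries (Fin m) F :=
  ((P.map (algebraMap (𝓞 F) F) : MvPolynomial (Fin m) F) : MvPowerSeries (Fin m) F)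

/-- the partial derivative `∂f / ∂x_i` -/
noncomputable def partialD (i : Fin m) (f : MvPowerSeries (Fin m) F) : MvPowerSeries (Fin m) F :=
  fun ν => ((ν i : F) + 1) * MvPowerSeries.coeff (ν + Finsupp.single i 1) f

/-- `Z` is an invertible `n × n` matrix of G-functions in `m` variables with coefficients in the number field `F`, `W = Z⁻¹`,
which solves the system `T ∂Z / ∂x_i = Z A_i`, `i = 1, …, m`. The degrees of `T` and `A_i` are at most `q`; the
houses of their coefficients and the growth of the coefficients of `Z` and of the denominators of the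
coefficients of `Z` and `W` are bounded by `H`. -/
structure Family (q : ℕ) (H : ℝ) (T : MvPolynomial (Fin m) (𝓞 F)) (A : Fin m → Fin n → Fin n → MvPolynomial (Fin m) (𝓞 F))
    (Z W : Matrix (Fin n) (Fin n) (MvPowerSeries (Fin m) F)) : Prop where
  /-- the degree of `T` -/
  degT : T.totalDegree ≤ q
  /-- the height of `T` -/
  sizeT : ∀ ν, house (algebraMap (𝓞 F) F (T.coeff ν)) ≤ H
  /-- the degrees of the `A_i` -/
  degA : ∀ i a b, (A i a b).totalDegree ≤ q
  /-- the heights of the `A_i` -/
  sizeA : ∀ i a b ν, house (algebraMap (𝓞 F) F ((A i a b).coeff ν)) ≤ H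
  /-- the differential equations -/
  ode : ∀ i a b, toSeries T * partialD i (Z a b) = ∑ l, Z a l * toSeries (A i l b)
  /-- `W` is the inverse of `Z` -/
  inv : W * Z = 1
  /-- the growth of the coefficients -/
  size : ∀ a b (ν : Fin m →₀ ℕ), house (MvPowerSeries.coeff ν (Z a b)) ≤ H ^ (∑ i, ν i + 1)
  /-- the growth of the common denominators of the coefficients -/
  den : ∀ k : ℕ, ∃ d : ℕ, 0 < d ∧ (d : ℝ) ≤ H ^ (k + 1) ∧ ∀ a b (ν : Fin m →₀ ℕ), ∑ i, ν i ≤ k →
    IsIntegral ℤ ((d : F) * MvPowerSeries.coeff ν (Z a b)) ∧ IsIntegral ℤ ((d : F) * MvPowerSeries.coeff ν (W a b))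

/-- the power series `f(x a)` in the variable `x`, the restriction of `f` to the line through `0` with direction `a` -/
noncomputable def restrict (a : Fin m → 𝓞 F) (f : MvPowerSeries (Fin m) F) : PowerSeries F :=
  PowerSeries.mk fun k => ∑ ν ∈ (Finset.univ : Finset (Fin m)).finsuppAntidiag k,
    MvPowerSeries.coeff ν f * ∏ i, (algebraMap (𝓞 F) F (a i)) ^ ν i

/-- the value `φ(Z)(φ(a) / b)`, that is, the value at `x = 1 / b` of the restriction of `Z` to the line, for the embedding `φ` -/
noncomputable def value (φ : F →+* ℂ) (Z : Matrix (Fin n) (Fin n) (MvPowerSeries (Fin m) F)) (a : Fin m → 𝓞 F) (b : ℕ) :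
    Matrix (Fin n) (Fin n) ℂ :=
  Matrix.of fun i j => ∑' k : ℕ, φ (coeff k (restrict a (Z i j))) * (1 / (b : ℂ)) ^ k

/-- the restriction of `Z` to the line with direction `a`, over `ℂ` -/
noncomputable def onLine (φ : F →+* ℂ) (a : Fin m → 𝓞 F) (Z : Matrix (Fin n) (Fin n) (MvPowerSeries (Fin m) F)) :
    Matrix (Fin n) (Fin n) (PowerSeries ℂ) :=
  Z.map fun f => PowerSeries.map φ (restrict a f)

/-- `(X_1, …, X_N)` is an infinitesimal symmetry of the matrices `Y_1, …, Y_N` of power series: for all polynomial relations
`R(x, Y_1(x), …, Y_N(x)) = 0` over `ℂ[x]` the derivative of `R(x, (1 + ε X_1) Y_1(x), …, (1 + ε X_N) Y_N(x))` at `ε = 0` is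
zero. -/
def Symmetry (Y : Fin N → Matrix (Fin n) (Fin n) (PowerSeries ℂ)) (X : Fin N → Matrix (Fin n) (Fin n) ℂ) : Prop :=
  ∀ R : MvPolynomial (Fin N × Fin n × Fin n) (Polynomial ℂ),
    MvPolynomial.aeval (fun σ => Y σ.1 σ.2.1 σ.2.2) R = 0 →
    ∑ σ, MvPolynomial.aeval (fun σ => Y σ.1 σ.2.1 σ.2.2) (MvPolynomial.pderiv σ R) *
      ((X σ.1).map (PowerSeries.C (R := ℂ)) * Y σ.1) σ.2.1 σ.2.2 = 0

end several

/-- `y` satisfies an equation `P(ξ, y) = 0` where `P` has rational coefficients and total degree at most `e` and `P(ξ, Y)` is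
not the zero polynomial. All algebraic numbers of degree at most `e` and all polynomials of degree at most `e` in the `ξ_i` with
rational coefficients have this property. -/
def AlgebraicOver (e : ℕ) {ι : Type} (ξ : ι → ℂ) (y : ℂ) : Prop :=
  ∃ P : MvPolynomial (Option ι) ℚ, P.totalDegree ≤ e ∧ MvPolynomial.aeval (fun o : Option ι => o.elim y ξ) P = 0 ∧
    ∃ y' : ℂ, MvPolynomial.aeval (fun o : Option ι => o.elim y' ξ) P ≠ 0

/-- numbers which are algebraic over `ℚ(ξ_1, …, ξ_u)` are algebraic of bounded degree -/
theorem algebraicOver_of_isAlgebraic {u : ℕ} {ξ : Fin u → ℂ} {y : ℂ}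
    (h : IsAlgebraic (IntermediateField.adjoin ℚ (Set.range ξ)) y) : ∃ e, AlgebraicOver e ξ y :=
  Pool.Agent.H885.algD_of_alg h

/-- The transcendence degree over `ℚ(ξ)` of the entries of the matrices `P_1, …, P_N` is at least `t`, in degree at
most `δ`: some `t` of the entries (at different places) satisfy no nonzero polynomial relation of degree at most `δ` the
coefficients of which are algebraic of degree at most `e` over the `ξ_i`. -/
def TrdegAtLeast {n N : ℕ} (t e δ : ℕ) {ι : Type} (ξ : ι → ℂ) (P : Fin N → Matrix (Fin n) (Fin n) ℂ) : Prop :=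
  ∃ σ : Fin t → Fin N × Fin n × Fin n, Function.Injective σ ∧ ∀ S : MvPolynomial (Fin t) ℂ, S.totalDegree ≤ δ →
    (∀ ν, AlgebraicOver e ξ (S.coeff ν)) →
    MvPolynomial.aeval (fun i => P (σ i).1 (σ i).2.1 (σ i).2.2) S = 0 → S = 0

/-- the distance of `b` and `c` is larger than `2^(m+1) H (h + 2)` -/
def Far (m : ℕ) (H : ℝ) (h b c : ℕ) : Prop := 2 ^ (m + 1) * H * ((h : ℝ) + 2) < |(b : ℝ) - c|

/-- A tuple of `N` fibres: denominators `b_j` and numerators `a_j` of the points, embeddings `φ_j` of the number field, systems
`T_j, A_j`, their fundamental matrices `Z_j` and `W_j = Z_j⁻¹`, and the matrices `C_j` of the periods and logarithms of the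
central fibres, `ℓ` further numbers `γ`, a space `𝔤` of tuples of matrices, numbers `η`, and the sets of rows `top` which contain
the logarithms (the other rows contain the periods of the subobjects). -/
structure Fibres (F : Type) [Field F] [NumberField F] (m n N ℓ u : ℕ) where
  /-- the denominators of the points -/
  b : Fin N → ℕ
  /-- the numerators of the points -/
  a : Fin N → Fin m → 𝓞 F
  /-- the embeddings -/
  φ : Fin N → F →+* ℂ
  /-- the denominators of the systems -/
  T : Fin N → MvPolynomial (Fin m) (𝓞 F)
  /-- the matrices of the systems -/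
  A : Fin N → Fin m → Fin n → Fin n → MvPolynomial (Fin m) (𝓞 F)
  /-- the fundamental matrices -/
  Z : Fin N → Matrix (Fin n) (Fin n) (MvPowerSeries (Fin m) F)
  /-- their inverses -/
  W : Fin N → Matrix (Fin n) (Fin n) (MvPowerSeries (Fin m) F)
  /-- further constants -/
  γ : Fin ℓ → ℂ
  /-- the periods and logarithms of the central fibres -/
  C : Fin N → Matrix (Fin n) (Fin n) ℂ
  /-- symmetries -/
  𝔤 : Submodule ℂ (Fin N → Matrix (Fin n) (Fin n) ℂ)
  /-- further generators of the base field -/
  η : Fin u → ℂ
  /-- the rows which contain the logarithms -/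
  top : Fin N → Fin n → Prop

section fibres
variable {F : Type} [Field F] [NumberField F]

/-- the period matrices `C_j Z_j(a_j / b_j)` of the fibres -/
noncomputable def Fibres.periods {m n N ℓ u : ℕ} (x : Fibres F m n N ℓ u) : Fin N → Matrix (Fin n) (Fin n) ℂ :=
  fun j => x.C j * value (x.φ j) (x.Z j) (x.a j) (x.b j)

open Classical in
/-- the generators of the base field: the numbers `η_i` and the entries of the rows of the period matrices which are not in
`top`, that is, the periods of the subobjects `G_j` at the points -/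
noncomputable def Fibres.base {m n N ℓ u : ℕ} (x : Fibres F m n N ℓ u) : Fin u ⊕ (Fin N × Fin n × Fin n) → ℂ :=
  Sum.elim x.η fun σ => if x.top σ.1 σ.2.1 then 0 else x.periods σ.1 σ.2.1 σ.2.2

/-- The conditions for a tuple of fibres, see the description of the theorem. -/
structure Fibres.Valid {m n N ℓ u s : ℕ} (q M e : ℕ) (β : Fin s → ℂ) (H : ℝ) (h w b₀ : ℕ) (x : Fibres F m n N ℓ u) : Prop where
  /-- the denominators are in the window `[b₀, b₀ + w]` -/
  window : ∀ j, b₀ ≤ x.b j ∧ x.b j ≤ b₀ + w
  /-- they are equal or far from each other -/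
  far : ∀ i j, x.b i = x.b j ∨ Far m H h (x.b i) (x.b j)
  /-- at most `M` of them are different -/
  different : (Finset.univ.image x.b).card ≤ M
  /-- the numerators are bounded by `h` -/
  numerators : ∀ j i, house (algebraMap (𝓞 F) F (x.a j i)) ≤ h
  /-- the systems have degree at most `q`, height and growth constants at most `H` -/
  family : ∀ j, Family q H (x.T j) (x.A j) (x.Z j) (x.W j)
  /-- the lines are not contained in the polar loci -/
  pole : ∀ j, restrict (x.a j) (toSeries (x.T j)) ≠ 0
  /-- the periods and logarithms of the central fibres are algebraic over `ℚ(β, γ)` -/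
  central : ∀ j i i', AlgebraicOver e (Fin.append β x.γ) (x.C j i i')
  /-- the period matrices are invertible -/
  invertible : ∀ j, IsUnit (x.periods j)
  /-- the numbers `η_i` are algebraic over `ℚ(β, γ)` -/
  field : ∀ i, AlgebraicOver e (Fin.append β x.γ) (x.η i)
  /-- `𝔤` consists of infinitesimal symmetries, separately for each denominator `c` -/
  symmetries : ∀ X ∈ x.𝔤, ∀ c : ℕ,
    Symmetry (fun j => if x.b j = c then onLine (x.φ j) (x.a j) (x.Z j) else 1) (fun j => if x.b j = c then X j else 0)
  /-- the entries of the `C_j` in the rows outside of `top` and the columns in `top` are zero -/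
  subobject : ∀ j i i', ¬ x.top j i → x.top j i' → x.C j i i' = 0
  /-- the symmetries are zero in the rows outside of `top` -/
  relative : ∀ X ∈ x.𝔤, ∀ j i i', ¬ x.top j i → X j i i' = 0

/-- The relative defect of the tuple of fibres is at most `ρ`, in bounded degree: the transcendence degree of the entries of the
period matrices over the field generated by the `η_i` and the periods of the subobjects at the points is at least `dim 𝔤 - ρ`. -/
def Fibres.RelativeDefectAtMost {m n N ℓ u : ℕ} (e δ : ℕ) (x : Fibres F m n N ℓ u) (ρ : ℕ) : Prop :=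
  TrdegAtLeast (Module.finrank ℂ x.𝔤 - ρ) e δ x.base x.periods

/-- the denominators of two tuples of fibres are far from each other -/
def Separated {m n N ℓ u : ℕ} (H : ℝ) (h : ℕ) (x y : Fibres F m n N ℓ u) : Prop := ∀ i j, Far m H h (x.b i) (y.b j)

end fibres

/-! ## Proofs -/

section proofs
variable {F : Type} [Field F] [NumberField F]

theorem gfam_of {m n q : ℕ} {H : ℝ} {T : MvPolynomial (Fin m) (𝓞 F)}
    {A : Fin m → Fin n → Fin n → MvPolynomial (Fin m) (𝓞 F)} {Z W : Matrix (Fin n) (Fin n) (MvPowerSeries (Fin m) F)}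
    (h : Family q H T A Z W) : Pool.Agent.H885.GFam q H T A Z W :=
  ⟨h.degT, h.sizeT, h.degA, h.sizeA, h.ode, h.inv, h.size, h.den⟩

theorem far_symm {m : ℕ} {H : ℝ} {h b c : ℕ} (hbc : Far m H h b c) : Far m H h c b := by
  unfold Far at hbc ⊢
  rw [abs_sub_comm]
  exact hbc

/-- a bounded number of separated tuples -/
theorem core (F : Type) [Field F] [NumberField F] (m n N q s ℓ u e δ L : ℕ) (d : Fin L → ℕ) : ∃ E : ℕ,
    ∀ (M : ℕ) (β : Fin s → ℂ) (H : ℝ) (h w b₀ : ℕ), 1 ≤ H →
    (2 * H * ((h : ℝ) + w + 2)) ^ E ≤ (b₀ : ℝ) → ∀ x : Fin L → Fibres F m n N ℓ u, (∀ l, (x l).Valid q M e β H h w b₀) →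
    (∀ l l', l ≠ l' → Separated H h (x l) (x l')) → (∀ l, d l = Module.finrank ℂ (x l).𝔤) →
    ∃ ρ : Fin L → ℕ, ∑ l, ρ l ≤ s ∧ ∀ l, (x l).RelativeDefectAtMost e δ (ρ l + ℓ) := by
  classical
  obtain ⟨E₀, hbase⟩ := Pool.Agent.H885.base_F F m n q
  obtain ⟨E, hE⟩ := Pool.Agent.H885.uniformFR F n N q s ℓ u e δ L d
  obtain ⟨e₁, he₁⟩ := Pool.Agent.H885.pow_absorb (c := (2 : ℝ) * (1 + 2 ^ m)) (by
    have : (1 : ℝ) ≤ 2 ^ m := one_le_pow₀ (by norm_num)
    linarith)
  refine ⟨(e₁ + E₀ + 1) * E, fun M β H h w b₀ hH hbig xs hxs hsep hd => ?_⟩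
  set x : ℝ := 2 * H * ((h : ℝ) + w + 2) with hx
  have hh0 : (0 : ℝ) ≤ h := by positivity
  have hw0 : (0 : ℝ) ≤ w := by positivity
  have hx1 : (h : ℝ) + w + 2 ≤ x := by
    rw [hx]
    nlinarith
  have hx2 : 2 ≤ x := by linarith
  have hx3 : H * ((h : ℝ) + 2) ≤ x := by
    rw [hx]
    nlinarith
  have hx4 : 2 * H * ((h : ℝ) + 2) ≤ x := by
    rw [hx]
    nlinarith
  have hbig' : (2 * (2 * H * ((h : ℝ) + 2)) ^ E₀ * ((w : ℝ) + 2 ^ m * (H * ((h : ℝ) + 2)) + 2)) ^ E ≤ (b₀ : ℝ) := by
    refine le_trans ?_ hbig
    rw [pow_mul]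
    refine pow_le_pow_left₀ (by positivity) ?_ E
    have h1 : (2 * H * ((h : ℝ) + 2)) ^ E₀ ≤ x ^ E₀ := pow_le_pow_left₀ (by positivity) hx4 _
    have h2 : (w : ℝ) + 2 ^ m * (H * ((h : ℝ) + 2)) + 2 ≤ (1 + 2 ^ m) * x := by
      have h3 : (2 : ℝ) ^ m * (H * ((h : ℝ) + 2)) ≤ 2 ^ m * x := mul_le_mul_of_nonneg_left hx3 (by positivity)
      linarith
    calc 2 * (2 * H * ((h : ℝ) + 2)) ^ E₀ * ((w : ℝ) + 2 ^ m * (H * ((h : ℝ) + 2)) + 2) ≤
        2 * x ^ E₀ * ((1 + 2 ^ m) * x) := by
          refine mul_le_mul (by linarith) h2 (by positivity) (by positivity)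
      _ = (2 * (1 + 2 ^ m)) * (x ^ E₀ * x) := by ring
      _ ≤ x ^ e₁ * (x ^ E₀ * x) := mul_le_mul_of_nonneg_right (he₁ x hx2) (by positivity)
      _ = x ^ (e₁ + E₀ + 1) := by ring
  have hFar : ∀ b c : ℕ, Far m H h b c → 2 * (2 ^ m * (H * ((h : ℝ) + 2))) < |(b : ℝ) - c| := by
    intro b c hbc
    refine lt_of_eq_of_lt ?_ hbc
    ring
  obtain ⟨ρ, hρ, hρ'⟩ := hE ⟨fun l => (xs l).φ, (2 * H * ((h : ℝ) + 2)) ^ E₀,
      fun l j => Pool.Agent.H885.lineFP ((xs l).a j) ((xs l).T j),
      fun l j p p' => ∑ i, Polynomial.C ((xs l).a j i) * Pool.Agent.H885.lineFP ((xs l).a j) ((xs l).A j i p p'),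
      fun l j => Pool.Agent.H885.lineFM ((xs l).a j) ((xs l).Z j), fun l j => Pool.Agent.H885.lineFM ((xs l).a j) ((xs l).W j),
      2 ^ m * (H * ((h : ℝ) + 2)), w, b₀, fun l => (xs l).b, fun l => (xs l).𝔤⟩
    ⟨β, fun l => (xs l).γ, fun l => (xs l).C, fun l j => value ((xs l).φ j) ((xs l).Z j) ((xs l).a j) ((xs l).b j),
      fun l => (xs l).𝔤, fun l => (xs l).η, fun l => (xs l).top⟩
    ⟨one_le_pow₀ (by nlinarith), fun l j => hbase H hH _ _ _ _ (gfam_of ((hxs l).family j)) h hh0 _ ((hxs l).numerators j)
        ((hxs l).pole j), by positivity, fun l j a' b' k =>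
        Pool.Agent.H885.lineF_size hH (((hxs l).family j).size a' b') hh0 ((hxs l).numerators j) k,
      fun l j => (hxs l).window j, fun l j l' j' hne => by
        by_cases hll : l = l'
        · subst hll
          rcases (hxs l).far j j' with h2 | h2
          · exact absurd ⟨rfl, h2⟩ hne
          · exact hFar _ _ h2
        · exact hFar _ _ (hsep l l' hll j j'), hbig', fun l X hX c => Pool.Agent.H885.Tg_iff.2 ((hxs l).symmetries X hX c)⟩
    ⟨fun l => (hxs l).central, fun l j => (Matrix.isUnit_iff_isUnit_det _).1 ((hxs l).invertible j), fun l => (hd l).le,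
      fun l => (hxs l).field, fun l => (hxs l).subobject, fun l => (hxs l).relative⟩ (fun l j => rfl) (fun l => rfl)
  refine ⟨ρ, hρ, fun l => ?_⟩
  unfold Fibres.RelativeDefectAtMost
  rw [← hd l]
  exact hρ' l

end proofs

/-- **The theorem.** Part 1: the sum of the relative defects of separated tuples of fibres is at most `s` (up to `ℓ` for each tuple).
Part 2: the number of exceptional denominators with relative defects larger than `r`. -/
theorem result (F : Type) [Field F] [NumberField F] (m n N M q s ℓ u e δ : ℕ) :
    ∃ E : ℕ, ∀ (β : Fin s → ℂ) (H : ℝ) (h w b₀ : ℕ), 1 ≤ H → (2 * H * ((h : ℝ) + w + 2)) ^ E ≤ (b₀ : ℝ) →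
    (∀ (L : ℕ) (x : Fin L → Fibres F m n N ℓ u), (∀ l, (x l).Valid q M e β H h w b₀) →
      (∀ l l', l ≠ l' → Separated H h (x l) (x l')) →
      ∃ ρ : Fin L → ℕ, ∑ l, ρ l ≤ s ∧ ∀ l, (x l).RelativeDefectAtMost e δ (ρ l + ℓ)) ∧
    ∀ r : ℕ, ℓ ≤ r → ∃ 𝓔 : Finset ℕ, 𝓔.card ≤ M * (s / (r + 1 - ℓ)) ∧
      ∀ x : Fibres F m n N ℓ u, x.Valid q M e β H h w b₀ → (∀ j, ∀ c ∈ 𝓔, Far m H h (x.b j) c) →
      x.RelativeDefectAtMost e δ r := by
  classical
  choose E hE using core F m n N q s ℓ u e δ
  set D : ℕ := Module.finrank ℂ (Fin N → Matrix (Fin n) (Fin n) ℂ) with hD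
  set E' : ℕ := ∑ L ∈ Finset.range (s + 2), ∑ d : Fin L → Fin (D + 1), E L fun l => (d l : ℕ) with hE'
  have hle : ∀ L, L ≤ s + 1 → ∀ d : Fin L → ℕ, (∀ l, d l ≤ D) → E L d ≤ E' := by
    intro L hL d hd
    have h1 := Finset.single_le_sum (f := fun L => ∑ d : Fin L → Fin (D + 1), E L fun l => (d l : ℕ))
      (fun _ _ => Nat.zero_le _) (Finset.mem_range.2 (by omega : L < s + 2))
    have h2 := Finset.single_le_sum (f := fun d : Fin L → Fin (D + 1) => E L fun l => (d l : ℕ))
      (fun _ _ => Nat.zero_le _) (Finset.mem_univ fun l => (⟨d l, Nat.lt_succ_of_le (hd l)⟩ : Fin (D + 1)))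
    exact h2.trans h1
  refine ⟨E', fun β H h w b₀ hH hbig => ?_⟩
  have hx1 : (1 : ℝ) ≤ 2 * H * ((h : ℝ) + w + 2) := by
    have h1 : (0 : ℝ) ≤ h := by positivity
    have h2 : (0 : ℝ) ≤ w := by positivity
    nlinarith
  -- at most `s + 1` tuples
  have hcore : ∀ (L : ℕ) (x : Fin L → Fibres F m n N ℓ u), L ≤ s + 1 → (∀ l, (x l).Valid q M e β H h w b₀) →
      (∀ l l', l ≠ l' → Separated H h (x l) (x l')) →
      ∃ ρ : Fin L → ℕ, ∑ l, ρ l ≤ s ∧ ∀ l, (x l).RelativeDefectAtMost e δ (ρ l + ℓ) := by
    intro L x hL hx hsep
    refine hE L (fun l => Module.finrank ℂ (x l).𝔤) M β H h w b₀ hH ?_ x hx hsep fun l => rfl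
    exact (pow_le_pow_right₀ hx1 (hle L hL _ fun l => Submodule.finrank_le _)).trans hbig
  -- the defect
  have hex : ∀ x : Fibres F m n N ℓ u, ∃ ρ, x.RelativeDefectAtMost e δ (ρ + ℓ) := by
    intro x
    refine ⟨Module.finrank ℂ x.𝔤, ?_⟩
    unfold Fibres.RelativeDefectAtMost
    have h1 : Module.finrank ℂ x.𝔤 - (Module.finrank ℂ x.𝔤 + ℓ) = 0 := by omega
    rw [h1]
    exact Pool.Agent.H885.trG_zero _ _
  set df : Fibres F m n N ℓ u → ℕ := fun x => Nat.find (hex x) with hdf
  have hdf1 : ∀ x : Fibres F m n N ℓ u, x.RelativeDefectAtMost e δ (df x + ℓ) := fun x => Nat.find_spec (hex x)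
  have hdf2 : ∀ (x : Fibres F m n N ℓ u) (ρ : ℕ), x.RelativeDefectAtMost e δ (ρ + ℓ) → df x ≤ ρ := fun x ρ hρ => Nat.find_min' (hex x) hρ
  have hmain : ∀ (L : ℕ) (x : Fin L → Fibres F m n N ℓ u), (∀ l, (x l).Valid q M e β H h w b₀) →
      (∀ l l', l ≠ l' → Separated H h (x l) (x l')) → ∑ l, df (x l) ≤ s := by
    intro L x hx hsep
    -- subsets
    have hsub : ∀ Λ : Finset (Fin L), Λ.card ≤ s + 1 → ∑ l ∈ Λ, df (x l) ≤ s := by
      intro Λ hΛ
      set f := Λ.orderEmbOfFin rfl with hf
      obtain ⟨ρ, hρ, hρ'⟩ := hcore Λ.card (fun i => x (f i)) hΛ (fun i => hx _) fun i i' hii =>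
        hsep _ _ fun h1 => hii (f.injective h1)
      have h1 : ∑ i : Fin Λ.card, df (x (f i)) = ∑ l ∈ Λ, df (x l) := by
        have h2 : Λ = Finset.univ.map f.toEmbedding := by
          rw [hf, ← Finset.coe_inj]
          simp
        conv_rhs => rw [h2, Finset.sum_map]
      rw [← h1]
      exact (Finset.sum_le_sum fun i _ => hdf2 _ _ (hρ' i)).trans hρ
    set Λ := Finset.univ.filter fun l => df (x l) ≠ 0 with hΛ
    have h1 : ∑ l, df (x l) = ∑ l ∈ Λ, df (x l) := by
      rw [hΛ, Finset.sum_filter_ne_zero]
    rcases le_or_gt Λ.card (s + 1) with h2 | h2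
    · rw [h1]
      exact hsub Λ h2
    · obtain ⟨Λ', hΛ', hcard⟩ := Finset.exists_subset_card_eq (s := Λ) h2.le
      have h3 := hsub Λ' hcard.le
      have h4 : Λ'.card ≤ ∑ l ∈ Λ', df (x l) := by
        rw [Finset.card_eq_sum_ones]
        refine Finset.sum_le_sum fun l hl => ?_
        have := (Finset.mem_filter.1 (hΛ' hl)).2
        omega
      omega
  refine ⟨fun L x hx hsep => ⟨fun l => df (x l), hmain L x hx hsep, fun l => hdf1 _⟩, fun r hr => ?_⟩
  -- the exceptional denominators
  set P : ℕ → Prop := fun p => ∃ x : Fin p → Fibres F m n N ℓ u, (∀ l, (x l).Valid q M e β H h w b₀) ∧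
    (∀ l l', l ≠ l' → Separated H h (x l) (x l')) ∧ ∀ l, ¬ (x l).RelativeDefectAtMost e δ r with hP
  have hPle : ∀ p, P p → p ≤ s / (r + 1 - ℓ) := by
    rintro p ⟨x, hx, hsep, hbad⟩
    rw [Nat.le_div_iff_mul_le (by omega)]
    have h1 := hmain p x hx hsep
    have h2 : ∀ l, r + 1 - ℓ ≤ df (x l) := by
      intro l
      by_contra hcon
      apply hbad l
      refine Pool.Agent.H885.TrG.mono (t := Module.finrank ℂ (x l).𝔤 - (df (x l) + ℓ)) ?_ (hdf1 (x l))
      omega
    have h3 : ∑ _l : Fin p, (r + 1 - ℓ) ≤ ∑ l, df (x l) := Finset.sum_le_sum fun l _ => h2 l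
    rw [Finset.sum_const, Finset.card_univ, Fintype.card_fin, smul_eq_mul] at h3
    exact h3.trans h1
  have hP0 : P 0 := ⟨fun l => l.elim0, fun l => l.elim0, fun l => l.elim0, fun l => l.elim0⟩
  obtain ⟨p, hPp, hPp1⟩ : ∃ p, P p ∧ ¬ P (p + 1) := by
    by_contra hcon
    push Not at hcon
    have h1 : ∀ p, P p := by
      intro p
      induction p with
      | zero => exact hP0
      | succ p ih => exact hcon p ih
    have := hPle _ (h1 (s / (r + 1 - ℓ) + 1))
    omega
  have hple := hPle p hPp
  obtain ⟨x, hx, hsep, hbad⟩ := hPp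
  refine ⟨Finset.univ.biUnion fun l => Finset.univ.image (x l).b, ?_, fun y hy hyF => ?_⟩
  · refine Finset.card_biUnion_le.trans ?_
    refine (Finset.sum_le_card_nsmul _ _ M fun l _ => (hx l).different).trans ?_
    rw [Finset.card_univ, Fintype.card_fin, smul_eq_mul, mul_comm]
    exact Nat.mul_le_mul_left _ hple
  · by_contra hybad
    apply hPp1
    refine ⟨Fin.cons y x, fun l => ?_, fun l l' hll i j => ?_, fun l => ?_⟩
    · refine Fin.cases ?_ (fun l => ?_) l
      · exact hy
      · exact hx l
    · have hin : ∀ l j, (x l).b j ∈ Finset.univ.biUnion fun l => Finset.univ.image (x l).b := fun l j =>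
        Finset.mem_biUnion.2 ⟨l, Finset.mem_univ _, Finset.mem_image_of_mem _ (Finset.mem_univ _)⟩
      rcases Fin.eq_zero_or_eq_succ l with rfl | ⟨l, rfl⟩ <;> rcases Fin.eq_zero_or_eq_succ l' with rfl | ⟨l', rfl⟩
      · exact absurd rfl hll
      · rw [Fin.cons_zero, Fin.cons_succ]
        exact hyF i _ (hin l' j)
      · rw [Fin.cons_zero, Fin.cons_succ]
        exact far_symm (hyF j _ (hin l i))
      · rw [Fin.cons_succ, Fin.cons_succ]
        exact hsep l l' (fun h1 => hll (by rw [h1])) i j
    · refine Fin.cases ?_ (fun l => ?_) l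
      · exact hybad
      · exact hbad l

end Pool.Agent.Results.MP_4b482e_nt.RelativeDefects
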